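import Pool.Agent.helper1.CD.Spec

/-!
# Project CD (MP_2e0e07_nt), row CNB: primes over `v` with a given Frobenius element
-/

set_option autoImplicit false

open NumberField IsDedekindDomain Complex Pool.Agent.CH Pool.Agent.GK

namespace Pool.Agent.CD

open scoped Pointwise

/-- the places below the primes which divide the different -/
theorem CNB_T (K M : Type) [Field K] [NumberField K] [Field M] [NumberField M] [Algebra K M] :
    ∃ T : Finset (Pl K), ∀ v ∉ T, ∀ P : Ideal (𝓞 M), P.under (𝓞 K) = v.asIdeal → ¬ P ∣ differentIdeal (𝓞 K) (𝓞 M) := by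
  have hD : differentIdeal (𝓞 K) (𝓞 M) ≠ ⊥ := differentIdeal_ne_bot
  have hD2 : (differentIdeal (𝓞 K) (𝓞 M)).under (𝓞 K) ≠ ⊥ := by
    intro h
    exact hD (Ideal.eq_bot_of_comap_eq_bot (R := 𝓞 K) h)
  have hfin := Ideal.finite_factors (R := 𝓞 K) (I := (differentIdeal (𝓞 K) (𝓞 M)).under (𝓞 K)) hD2
  refine ⟨hfin.toFinset, ?_⟩
  intro v hv P hP hdvd
  apply hv
  rw [Set.Finite.mem_toFinset]
  show v.asIdeal ∣ _
  rw [Ideal.dvd_iff_le, ← hP]
  exact Ideal.comap_mono (Ideal.le_of_dvd hdvd)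

theorem CNB_conj {K M : Type} [Field K] [Field M] [Algebra K M] (g h : M ≃ₐ[K] M) (Q : Ideal (𝓞 M)) (q : ℕ)
    (hg : IsFr g (h • Q) q) : IsFr (h⁻¹ * g * h) Q q := by
  intro x
  have h1 := hg (h • x)
  have h2 : g • (h • x) - (h • x) ^ q = h • ((h⁻¹ * g * h) • x - x ^ q) := by
    rw [smul_sub, smul_pow', ← mul_smul, ← mul_smul]
    congr 2
    group
  rw [h2, Ideal.smul_mem_pointwise_smul_iff] at h1
  exact h1

theorem CNB_stab {K M : Type} [Field K] [Field M] [Algebra K M] [Finite (M ≃ₐ[K] M)] (g : M ≃ₐ[K] M) (Q : Ideal (𝓞 M)) (q : ℕ) (hq : q ≠ 0)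
    (hg : IsFr g Q q) : ∀ k : ℕ, g ^ k • Q = Q := by
  have h1 : ∀ x ∈ Q, g • x ∈ Q := by
    intro x hx
    have h := Q.add_mem (hg x) (Q.pow_mem_of_mem hx q (Nat.pos_of_ne_zero hq))
    rwa [sub_add_cancel] at h
  have h2 : ∀ k : ℕ, ∀ x ∈ Q, g ^ k • x ∈ Q := by
    intro k
    induction k with
    | zero => intro x hx; simpa using hx
    | succ k ih =>
      intro x hx
      rw [pow_succ', mul_smul]
      exact h1 _ (ih x hx)
  have h3 : ∀ k : ℕ, Q ≤ g ^ k • Q := by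
    intro k x hx
    rw [Ideal.mem_pointwise_smul_iff_inv_smul_mem]
    have h4 : ∃ m : ℕ, (g ^ k)⁻¹ = g ^ m := by
      have h5 : (g ^ k)⁻¹ ∈ Subgroup.zpowers g := Subgroup.inv_mem _ (Subgroup.pow_mem _ (Subgroup.mem_zpowers g) k)
      obtain ⟨m, hm⟩ := mem_powers_iff_mem_zpowers.2 h5
      exact ⟨m, hm.symm⟩
    obtain ⟨m, hm⟩ := h4
    rw [hm]
    exact h2 m x hx
  intro k
  apply le_antisymm
  · intro x hx
    rw [Ideal.mem_pointwise_smul_iff_inv_smul_mem] at hx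
    have h4 := h2 k _ hx
    rwa [smul_inv_smul] at h4
  · exact h3 k

/-- **CNB** -/
theorem CNB (hUNF : UNF_stmt) : CNB_stmt := by
  intro K M _ _ _ _ _ _ g
  obtain ⟨T, hT⟩ := CNB_T K M
  refine ⟨T, ?_⟩
  intro v hv
  have hq : nv K v ≠ 0 := by
    unfold nv
    rw [ne_eq, Ideal.absNorm_eq_zero_iff]
    exact v.ne_bot
  rcases isEmpty_or_nonempty {Q : Ideal (𝓞 M) // Q.IsPrime ∧ Q.under (𝓞 K) = v.asIdeal ∧ IsFr g Q (nv K v)} with he | ⟨⟨Q₀, hQ1, hQ2, hQ3⟩⟩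
  · rw [Nat.card_of_isEmpty, mul_zero]
    exact Nat.zero_le _
  have hQ0 : Q₀ ≠ ⊥ := by
    intro h
    apply v.ne_bot
    rw [← hQ2, h]
    exact Ideal.comap_bot_of_injective _ (FaithfulSMul.algebraMap_injective (𝓞 K) (𝓞 M))
  haveI := hQ1
  have hex : ∀ Q : {Q : Ideal (𝓞 M) // Q.IsPrime ∧ Q.under (𝓞 K) = v.asIdeal ∧ IsFr g Q (nv K v)}, ∃ h : M ≃ₐ[K] M, Q.1 = h • Q₀ := by
    rintro ⟨Q, h1, h2, h3⟩
    haveI := h1
    exact Algebra.IsInvariant.exists_smul_of_under_eq (𝓞 K) (𝓞 M) (M ≃ₐ[K] M) Q₀ Q (hQ2.trans h2.symm)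
  choose hh hhQ using hex
  have hcomm : ∀ Q, hh Q * g = g * hh Q := by
    intro Q
    have h1 : IsFr ((hh Q)⁻¹ * g * hh Q) Q₀ (nv K v) := by
      apply CNB_conj
      rw [← hhQ Q]
      exact Q.2.2.2
    have h2 := hUNF K M Q₀ (nv K v) _ g hQ1 hQ0 (hT v hv Q₀ hQ2) h1 hQ3
    calc hh Q * g = hh Q * ((hh Q)⁻¹ * g * hh Q) := by rw [h2]
      _ = g * hh Q := by group
  have hst := CNB_stab g Q₀ (nv K v) hq hQ3
  let f : Fin (orderOf g) × {Q : Ideal (𝓞 M) // Q.IsPrime ∧ Q.under (𝓞 K) = v.asIdeal ∧ IsFr g Q (nv K v)} → {h : M ≃ₐ[K] M // h * g = g * h} :=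
    fun p => ⟨hh p.2 * g ^ (p.1 : ℕ), by
      rw [mul_assoc, ← pow_succ, pow_succ', ← mul_assoc, hcomm, mul_assoc]⟩
  have hf : Function.Injective f := by
    rintro ⟨k, Q⟩ ⟨k', Q'⟩ h
    have h1 : hh Q * g ^ (k : ℕ) = hh Q' * g ^ (k' : ℕ) := congrArg Subtype.val h
    have h2 : Q = Q' := by
      apply Subtype.ext
      rw [hhQ Q, hhQ Q']
      have h3 := congrArg (fun z => z • Q₀) h1
      simp only [mul_smul, hst] at h3
      exact h3
    subst h2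
    have h4 : g ^ (k : ℕ) = g ^ (k' : ℕ) := mul_left_cancel h1
    have h5 : (k : ℕ) = k' := pow_injOn_Iio_orderOf k.2 k'.2 h4
    rw [Fin.ext h5]
  have hc := Nat.card_le_card_of_injective f hf
  rw [Nat.card_prod, Nat.card_fin] at hc
  exact hc

end Pool.Agent.CD
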